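import Mathlib
import Pool.Agent.Lib.helper6.Lor

set_option autoImplicit false

namespace Pool.Agent.Results.MP_241ca8_al.NotClosed

open Filter Topology Projectivization Matrix Pool.Agent.Lib.helper6.Lor

variable {n : ℕ} (B : Matrix (Fin n) (Fin n) ℝ)

/-- accumulation points of a subset of projective space -/
def Acc (A : Set (PV n)) : Set (PV n) := {y | AccPt y (𝓟 A)}

/-- limit roots -/
def EΦ : Set (PV n) := Acc {y | ∃ w ∈ W B, ∃ s, y = w • mk ℝ (Pi.single s 1) (by simp)}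

/-- limit directions with base point `x` -/
def Ex (x : PV n) : Set (PV n) := Acc {y | ∃ w ∈ W B, y = w • x}

/-- catchment set -/
def F : Set (PV n) := {x | Ex B x = EΦ B}

theorem result : ∃ (M : CoxeterMatrix (Fin 3)) (B : Matrix (Fin 3) (Fin 3) ℝ),
    IsCox M B ∧ Lorentzian B ∧ ¬ IsClosed (F B) := by
  refine ⟨M0, B0, cox.1, cox.2, fun H => ?_⟩
  have e0 : (Pi.single 0 1 : Fin 3 → ℝ) = c (-1 : ℤ) (0 : ℤ) (1 : ℤ) := by
    ext i; fin_cases i <;> simp [c]
  have e1 : (Pi.single 1 1 : Fin 3 → ℝ) = c (0 : ℤ) (-1 : ℤ) (-1 : ℤ) := by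
    ext i; fin_cases i <;> simp [c]
  have e2 : (Pi.single 2 1 : Fin 3 → ℝ) = c (0 : ℤ) (1 : ℤ) (0 : ℤ) := by
    ext i; fin_cases i <;> simp [c]
  have h1 : ∀ v hv, mk ℝ v hv ∈ EΦ B0 ↔ toBilin' B0 v v = 0 := fun v hv => by
    refine ⟨light B0 (K := 1) ?_, fun h => (null (p := (-1 : ℤ)) (q := (0 : ℤ)) (r := (1 : ℤ)) (by simp)
      (by simp) hv h).mono (principal_mono.2 ?_)⟩
    · rintro _ ⟨w, hw, s, rfl⟩
      refine ⟨w (Pi.single s 1), _, rfl, ?_⟩
      fin_cases s <;> simp only [Fin.reduceFinMk, e0, e1, e2, pres hw, cform] <;>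
        exact ⟨wint hw _ _ _, by norm_num⟩
    · rintro _ ⟨w, hw, rfl⟩
      exact ⟨w, hw, 0, by simp only [e0]⟩
  have h2 : ∀ (p q r : ℤ) (_ : (r : ℝ) ≠ 0) (h : (q : ℝ) * q - p * r ≠ 0), mk ℝ (c p q r) (cne h) ∈ F B0 := by
    intro p q r hr h
    ext y
    induction y using Projectivization.ind with | h v hv => ?_
    rw [h1]
    refine ⟨light B0 (K := |toBilin' B0 (c p q r) (c p q r)|) ?_, null hr h hv⟩
    rintro _ ⟨w, hw, rfl⟩
    exact ⟨w (c p q r), _, rfl, wint hw _ _ _, by rw [pres hw]⟩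
  obtain ⟨θ, g, g1, g2⟩ := baire 0
  obtain ⟨x, -, -, hx⟩ := Real.exists_seq_rat_strictMono_tendsto (2 * θ)
  have q1 : ∀ p r : ℝ, c p 1 r ≠ 0 := fun p r => by simp [c0, cinj]
  have t := tendsto_one_div_add_atTop_nhds_zero_nat (𝕜 := ℝ)
  have : mk ℝ (c (2 * θ) 1 0) (cne (by simp)) ∈ F B0 := by
    refine H.mem_of_tendsto (tend (fun _ => q1 _ _) _ (cc hx tendsto_const_nhds t)) ?_
    filter_upwards [(hx.mul t).eventually (gt_mem_nhds (by simp : 2 * θ * 0 < 1))] with k hk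
    have e : (((x k).den : ℝ) * (k + 1)) • c (x k) 1 (1 / (k + 1)) =
        c ((x k).num * (k + 1) : ℤ) ((x k).den * (k + 1) : ℤ) ((x k).den : ℤ) := by
      rw [csmul, cinj, Rat.cast_def]
      push_cast
      refine ⟨?_, ?_, ?_⟩ <;> field_simp
    convert h2 ((x k).num * (k + 1)) ((x k).den * (k + 1)) (x k).den (by simp) (by
      have := congrArg (fun z => toBilin' B0 z z) e
      simp only [map_smul, LinearMap.smul_apply, cform, smul_eq_mul] at this
      have p : (0 : ℝ) < (x k).den * (k + 1) * ((x k).den * (k + 1) *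
        (1 * 1 - (x k * (1 / (k + 1)) + x k * (1 / (k + 1))) / 2)) := by
        have : (0 : ℝ) < 1 * 1 - (x k * (1 / (k + 1)) + x k * (1 / (k + 1))) / 2 := by linarith
        positivity
      linarith) using 1
    exact ((mk_eq_mk_iff' ..).2 ⟨_, e⟩).symm
  have a : mk ℝ (c (2 * 0) 1 0) (cne (by simp)) ∈ Ex B0 (mk ℝ (c (2 * θ) 1 0) (cne (by simp))) :=
    accPt_iff_frequently.2 (g2.frequently (((Nat.cofinite_eq_atTop ▸ g1.tendsto_cofinite).eventually
      (eventually_cofinite_ne _)).frequently.mono fun k hk => ⟨hk, _, (g k).2, rfl⟩))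
  rw [show Ex B0 _ = _ from this, h1, cform] at a
  simp at a

end Pool.Agent.Results.MP_241ca8_al.NotClosed
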